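import Pool.Agent.Helper38.ND.Goals

/-!
Packet ND-N_BRU (MP_fc6b1e_nt): rational primes in short intervals.
-/

namespace Pool.Agent.Helper93.ND

open Finset

theorem n_bru : Pool.Agent.Helper38.ND.N_BRU := by
  rintro ⟨C, hC, hBG⟩
  refine ⟨8 * C, by positivity, fun δ hδ hδ1 => ⟨4 / δ ^ 2, fun Y hY F hF => ?_⟩⟩
  -- size of `Y`
  have hs : 2 / δ ≤ Real.sqrt Y := by
    apply Real.le_sqrt_of_sq_le
    rw [div_pow]
    norm_num
    exact hY
  have hδs : 2 ≤ δ * Real.sqrt Y := by
    rw [div_le_iff₀ hδ] at hs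
    linarith
  have hY0 : 0 < Y := lt_of_lt_of_le (by positivity) hY
  have hsq : Real.sqrt Y * Real.sqrt Y = Y := Real.mul_self_sqrt hY0.le
  have hs0 : 0 < Real.sqrt Y := Real.sqrt_pos.2 hY0
  have hs2 : 2 ≤ Real.sqrt Y := by nlinarith
  have hY4 : 4 ≤ Y := by nlinarith
  have hδY : 2 * Real.sqrt Y ≤ δ * Y := by
    have h1 := mul_le_mul_of_nonneg_right hδs hs0.le
    calc 2 * Real.sqrt Y ≤ δ * Real.sqrt Y * Real.sqrt Y := h1
      _ = δ * Y := by rw [mul_assoc, hsq]
  have hlog : 0 < Real.log Y := Real.log_pos (by linarith)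
  set b : ℕ := ⌊Y⌋₊ with hb
  set N : ℕ := ⌈δ * Y⌉₊ + 1 with hN
  have hb1 : (b : ℝ) ≤ Y := Nat.floor_le hY0.le
  have hb2 : Y < b + 1 := Nat.lt_floor_add_one Y
  have hN1 : δ * Y + 1 ≤ N := by
    rw [hN]
    push_cast
    have := Nat.le_ceil (δ * Y)
    linarith
  have hN2 : (N : ℝ) ≤ 2 * (δ * Y) := by
    rw [hN]
    push_cast
    have := Nat.ceil_lt_add_one (show 0 ≤ δ * Y by positivity)
    linarith
  have hN3 : Real.sqrt Y ≤ N := by linarith
  have hNn : 2 ≤ N := by
    have : (2 : ℝ) ≤ N := by linarith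
    exact_mod_cast this
  -- the number of the primes
  have h1 := hBG 1 b N le_rfl hNn (Nat.coprime_one_right b)
  rw [Nat.totient_one, Nat.cast_one, div_one, mul_one] at h1
  have hcard : F.card ≤ ((Icc 1 N).filter (fun t => (1 * t + b).Prime)).card := by
    refine Finset.card_le_card_of_injOn (fun l => l - b) ?_ ?_
    · intro l hl
      obtain ⟨hp, hl1, hl2⟩ := hF l hl
      have hbl : b < l := by
        have : (b : ℝ) < l := lt_of_le_of_lt hb1 hl1
        exact_mod_cast this
      have hlN : l ≤ b + N := by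
        have h2 : (l : ℝ) < b + N + 1 := by nlinarith
        have h3 : l < b + N + 1 := by exact_mod_cast h2
        omega
      have e1 : 1 * (l - b) + b = l := by omega
      have e2 : 1 ≤ l - b := by omega
      have e3 : l - b ≤ N := by omega
      refine Finset.mem_coe.2 (Finset.mem_filter.2 ⟨Finset.mem_Icc.2 ⟨e2, e3⟩, ?_⟩)
      rw [e1]
      exact hp
    · intro l hl l' hl' heq
      have hbl : ∀ x ∈ F, b < x := by
        intro x hx
        have : (b : ℝ) < x := lt_of_le_of_lt hb1 (hF x hx).2.1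
        exact_mod_cast this
      have h2 := hbl l hl
      have h3 := hbl l' hl'
      simp only at heq
      omega
  have hcard' : (F.card : ℝ) ≤ C * (N / Real.log N) := by
    refine le_trans (by exact_mod_cast hcard) h1
  have hlogN : Real.log Y / 2 ≤ Real.log N := by
    have h2 : Real.log (Real.sqrt Y) ≤ Real.log N := Real.log_le_log hs0 hN3
    rwa [Real.log_sqrt hY0.le] at h2
  have hNl : (N : ℝ) / Real.log N ≤ 2 * (δ * Y) / (Real.log Y / 2) :=
    div_le_div₀ (by positivity) hN2 (by positivity) hlogN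
  -- the logarithms
  have hl2 : ∀ l ∈ F, Real.log l ≤ 2 * Real.log Y := by
    intro l hl
    obtain ⟨_, hl1, hl2⟩ := hF l hl
    have h2 : (l : ℝ) ≤ Y ^ 2 := by nlinarith
    have h3 : Real.log l ≤ Real.log (Y ^ 2) := Real.log_le_log (by linarith) h2
    rw [Real.log_pow] at h3
    exact_mod_cast h3
  calc ∑ l ∈ F, Real.log l ≤ ∑ _l ∈ F, 2 * Real.log Y := Finset.sum_le_sum hl2
    _ = F.card * (2 * Real.log Y) := by rw [Finset.sum_const, nsmul_eq_mul]
    _ ≤ C * (2 * (δ * Y) / (Real.log Y / 2)) * (2 * Real.log Y) := by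
        refine mul_le_mul_of_nonneg_right (hcard'.trans ?_) (by positivity)
        exact mul_le_mul_of_nonneg_left hNl hC.le
    _ = 8 * C * δ * Y := by
        field_simp
        ring

end Pool.Agent.Helper93.ND
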